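import Pool.Agent.Lib.HYP.Def

/-!
Module R.CW. A quadratic form in at least five variables over `k(t)`, `k` a finite field, has a
nontrivial zero (theorem of Chevalley and Warning, applied to the coefficients).
-/

set_option autoImplicit false

open Polynomial Matrix

namespace Pool.Agent.HYP.R

/-- all coefficients have total degree at most `d` -/
private def DL {σ k : Type} [CommRing k] (d : ℕ) (P : (MvPolynomial σ k)[X]) : Prop :=
  ∀ j, (P.coeff j).totalDegree ≤ d

private theorem DL.sum {σ k ι : Type} [CommRing k] {d : ℕ} (s : Finset ι)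
    (P : ι → (MvPolynomial σ k)[X]) (h : ∀ i ∈ s, DL d (P i)) : DL d (∑ i ∈ s, P i) := by
  intro j
  rw [Polynomial.finsetSum_coeff]
  exact MvPolynomial.totalDegree_finsetSum_le fun i hi => h i hi j

private theorem DL.mul {σ k : Type} [CommRing k] {d e : ℕ} {P Q : (MvPolynomial σ k)[X]}
    (hP : DL d P) (hQ : DL e Q) : DL (d + e) (P * Q) := by
  intro j
  rw [Polynomial.coeff_mul]
  refine MvPolynomial.totalDegree_finsetSum_le fun x _ => ?_
  exact (MvPolynomial.totalDegree_mul _ _).trans (add_le_add (hP _) (hQ _))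

/-- the integral case -/
theorem exists_zero_poly {k : Type} [Field k] [Finite k] {n : ℕ} (hn : 5 ≤ n)
    (G : Matrix (Fin n) (Fin n) k[X]) :
    ∃ x : Fin n → k[X], x ≠ 0 ∧ x ⬝ᵥ (G *ᵥ x) = 0 := by
  classical
  have : Fintype k := Fintype.ofFinite k
  obtain ⟨D, hD⟩ : ∃ D : ℕ, ∀ i j, (G i j).natDegree ≤ D :=
    ⟨Finset.univ.sup fun i => Finset.univ.sup fun j => (G i j).natDegree, fun i j =>
      (Finset.le_sup (f := fun j => (G i j).natDegree) (Finset.mem_univ j)).trans
        (Finset.le_sup (f := fun i => Finset.univ.sup fun j => (G i j).natDegree)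
          (Finset.mem_univ i))⟩
  set s : ℕ := 2 * D + 2 with hs
  set σ := Fin n × Fin (s + 1) with hσ
  let P : Fin n → (MvPolynomial σ k)[X] := fun i =>
    ∑ a : Fin (s + 1), C (MvPolynomial.X (i, a)) * X ^ (a : ℕ)
  let Q : (MvPolynomial σ k)[X] :=
    ∑ i, P i * ∑ j, (G i j).map (MvPolynomial.C (σ := σ)) * P j
  have hP : ∀ i, DL 1 (P i) := by
    intro i
    refine DL.sum _ _ fun a _ j => ?_
    rw [Polynomial.coeff_C_mul, Polynomial.coeff_X_pow]
    split_ifs
    · rw [mul_one, MvPolynomial.totalDegree_X]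
    · simp
  have hQ : DL 2 Q := by
    refine DL.sum _ _ fun i _ => ?_
    refine DL.mul (d := 1) (e := 1) (hP i) ?_
    refine DL.sum _ _ fun j _ => ?_
    have : DL 0 ((G i j).map (MvPolynomial.C (σ := σ))) := by
      intro a
      rw [Polynomial.coeff_map, MvPolynomial.totalDegree_C]
    have := this.mul (hP j)
    rwa [zero_add] at this
  -- evaluation
  let ev : (σ → k) → Fin n → k[X] := fun y i => ∑ a : Fin (s + 1), C (y (i, a)) * X ^ (a : ℕ)
  have hev : ∀ y, Q.map (MvPolynomial.eval y) = ev y ⬝ᵥ (G *ᵥ ev y) := by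
    intro y
    have h1 : ∀ i, (P i).map (MvPolynomial.eval y) = ev y i := by
      intro i
      simp only [P, ev, Polynomial.map_sum, Polynomial.map_mul, Polynomial.map_C,
        Polynomial.map_pow, Polynomial.map_X, MvPolynomial.eval_X]
    have h2 : ∀ p : k[X], (p.map (MvPolynomial.C (σ := σ))).map (MvPolynomial.eval y) = p := by
      intro p
      rw [Polynomial.map_map]
      have : (MvPolynomial.eval y).comp (MvPolynomial.C (σ := σ)) = RingHom.id k := by
        ext a; simp
      rw [this, Polynomial.map_id]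
    simp only [Q, Polynomial.map_sum, Polynomial.map_mul, h1, h2, dotProduct, Matrix.mulVec]
  have hdeg : ∀ y, (ev y ⬝ᵥ (G *ᵥ ev y)).natDegree ≤ 2 * s + D := by
    intro y
    have h1 : ∀ i, (ev y i).natDegree ≤ s := by
      intro i
      refine Polynomial.natDegree_sum_le_of_forall_le _ _ fun a _ => ?_
      refine (Polynomial.natDegree_C_mul_X_pow_le _ _).trans ?_
      omega
    unfold dotProduct Matrix.mulVec
    refine Polynomial.natDegree_sum_le_of_forall_le _ _ fun i _ => ?_
    refine Polynomial.natDegree_mul_le.trans ?_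
    have h2 : ((fun j => G i j) ⬝ᵥ ev y).natDegree ≤ D + s := by
      unfold dotProduct
      refine Polynomial.natDegree_sum_le_of_forall_le _ _ fun j _ => ?_
      exact Polynomial.natDegree_mul_le.trans (add_le_add (hD i j) (h1 j))
    refine (add_le_add (h1 i) h2).trans ?_
    omega
  -- Chevalley-Warning
  obtain ⟨p, hp⟩ := CharP.exists k
  have := hp
  have hpp : p.Prime := CharP.char_is_prime k p
  have hcw := char_dvd_card_solutions_of_sum_lt p (K := k) (σ := σ)
    (s := Finset.range (2 * s + D + 1)) (f := fun j => Q.coeff j) (by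
      calc ∑ j ∈ Finset.range (2 * s + D + 1), (Q.coeff j).totalDegree
          ≤ ∑ j ∈ Finset.range (2 * s + D + 1), 2 := Finset.sum_le_sum fun j _ => hQ j
        _ = (2 * s + D + 1) * 2 := by rw [Finset.sum_const, Finset.card_range, smul_eq_mul]
        _ < 5 * (s + 1) := by omega
        _ ≤ n * (s + 1) := Nat.mul_le_mul_right _ hn
        _ = Fintype.card σ := by simp [hσ])
  rw [← Nat.card_eq_fintype_card] at hcw
  have hsol : ∀ y : σ → k, (∀ j ∈ Finset.range (2 * s + D + 1),
      MvPolynomial.eval y (Q.coeff j) = 0) → ev y ⬝ᵥ (G *ᵥ ev y) = 0 := by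
    intro y hy
    ext j
    rw [← hev, Polynomial.coeff_map, Polynomial.coeff_zero]
    by_cases hj : j < 2 * s + D + 1
    · exact hy j (Finset.mem_range.mpr hj)
    · rw [← Polynomial.coeff_map, hev]
      exact Polynomial.coeff_eq_zero_of_natDegree_lt (by have := hdeg y; omega)
  have hev0 : ev 0 = 0 := by
    funext i
    simp [ev]
  have h0 : ∀ j ∈ Finset.range (2 * s + D + 1),
      MvPolynomial.eval (0 : σ → k) (Q.coeff j) = 0 := by
    intro j _
    rw [← Polynomial.coeff_map, hev, hev0, zero_dotProduct, Polynomial.coeff_zero]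
  have hcard : 1 < Nat.card {y : σ → k // ∀ j ∈ Finset.range (2 * s + D + 1),
      MvPolynomial.eval y (Q.coeff j) = 0} := by
    have hpos : 0 < Nat.card {y : σ → k // ∀ j ∈ Finset.range (2 * s + D + 1),
      MvPolynomial.eval y (Q.coeff j) = 0} := Nat.card_pos_iff.mpr ⟨⟨⟨0, h0⟩⟩, inferInstance⟩
    exact hpp.one_lt.trans_le (Nat.le_of_dvd hpos hcw)
  have hnt := Finite.one_lt_card_iff_nontrivial.mp hcard
  obtain ⟨⟨y, hy⟩, hy0⟩ := exists_ne (⟨0, h0⟩ : {y : σ → k // ∀ j ∈ Finset.range (2 * s + D + 1),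
      MvPolynomial.eval y (Q.coeff j) = 0})
  refine ⟨ev y, ?_, hsol y hy⟩
  intro h
  apply hy0
  refine Subtype.ext (funext fun ⟨i, a⟩ => ?_)
  have h1 := congrArg (fun q : k[X] => q.coeff (a : ℕ)) (congrFun h i)
  simp only [ev, Polynomial.finsetSum_coeff, Polynomial.coeff_C_mul, Polynomial.coeff_X_pow,
    Pi.zero_apply, Polynomial.coeff_zero] at h1
  rw [Finset.sum_eq_single a] at h1
  · simpa using h1
  · intro b _ hb
    have : (a : ℕ) ≠ (b : ℕ) := fun h => hb (Fin.ext h).symm
    simp [this]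
  · intro h; exact absurd (Finset.mem_univ a) h

theorem exists_zero {k : Type} [Field k] [Finite k] {n : ℕ} (hn : 5 ≤ n)
    (G : Matrix (Fin n) (Fin n) (RatFunc k)) :
    ∃ x : Fin n → RatFunc k, x ≠ 0 ∧ x ⬝ᵥ (G *ᵥ x) = 0 := by
  classical
  obtain ⟨d, hd⟩ := IsLocalization.exist_integer_multiples_of_finite (nonZeroDivisors k[X])
    (fun z : Fin n × Fin n => G z.1 z.2)
  choose G' hG' using hd
  obtain ⟨x, hx, hx0⟩ := exists_zero_poly hn (Matrix.of fun i j => G' (i, j))
  set ι := algebraMap k[X] (RatFunc k) with hι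
  have hinj : Function.Injective ι := IsFractionRing.injective k[X] (RatFunc k)
  refine ⟨fun i => ι (x i), ?_, ?_⟩
  · intro h
    apply hx
    funext i
    apply hinj
    rw [Pi.zero_apply, map_zero]
    exact congrFun h i
  · have hd0 : ι d ≠ 0 := by
      rw [Ne, map_eq_zero_iff ι hinj]
      exact nonZeroDivisors.ne_zero d.2
    refine (mul_eq_zero.mp ?_).resolve_left hd0
    have h1 := congrArg ι hx0
    rw [map_zero] at h1
    rw [← h1]
    simp only [dotProduct, Matrix.mulVec, map_sum, map_mul, Finset.mul_sum, Matrix.of_apply]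
    refine Finset.sum_congr rfl fun i _ => Finset.sum_congr rfl fun j _ => ?_
    have h2 := hG' (i, j)
    simp only [Algebra.smul_def] at h2
    rw [hι] at *
    rw [h2]
    ring

end Pool.Agent.HYP.R
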