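import Pool.Agent.Lib.HYP.R.Split
import Pool.Agent.Lib.HYP.R.CW
import Pool.Agent.Lib.BSDP.R.Recip
import Pool.Agent.Lib.BSDP.D.Comp

/-!
Module R.Recip: a nondegenerate quadratic form of rank `2 g + 1` over `k(t)` which is split at all
places but one is split at this place too.

Induction on `g`. For `g = 1` a form of rank `3` is split if and only if it is isotropic: this is
the reciprocity law of Lib/BSDP/R/Recip.lean. For `g ≥ 2` the form has a nontrivial zero over `k(t)`
(`R.exists_zero`), so it is `H + Q'` (`R.exists_split`), and over every completion it is split if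
and only if `Q'` is (`R.splitI_step`).
-/

set_option autoImplicit false

open Polynomial

namespace Pool.Agent.HYP

open Pool.Agent.BSDP Pool.Agent.BSDFF

private theorem split_one {F : Type} [Field F] (G : Matrix (Fin 3) (Fin 3) F) :
    R.SplitI 1 G ↔ Isotropic G := by
  constructor
  · rintro ⟨W, hd, hW⟩
    obtain ⟨⟨x, hx⟩, hx0⟩ : ∃ x : W, x ≠ 0 := by
      have : 0 < Module.finrank F W := by omega
      exact Module.finrank_pos_iff_exists_ne_zero.mp this
    exact ⟨x, fun h => hx0 (Subtype.ext h), hW x hx x hx⟩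
  · rintro ⟨x, hx0, hx⟩
    refine ⟨Submodule.span F {x}, finrank_span_singleton hx0, ?_⟩
    intro a ha b hb
    obtain ⟨s, rfl⟩ := Submodule.mem_span_singleton.mp ha
    obtain ⟨t, rfl⟩ := Submodule.mem_span_singleton.mp hb
    rw [Matrix.mulVec_smul, dotProduct_smul, smul_dotProduct, hx, smul_zero, smul_zero]

private theorem recip_aux {k : Type} [Field k] [Finite k] (h2 : (2 : k) ≠ 0)
    (v₀ : Place k (RatFunc k)) : ∀ (g : ℕ), 1 ≤ g → ∀ (n : ℕ), n = 2 * g + 1 →
    ∀ (G : Matrix (Fin n) (Fin n) (RatFunc k)), G.transpose = G → G.det ≠ 0 →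
    (∀ v : Place k (RatFunc k), v ≠ v₀ → R.SplitI g (G.map v.toCompletion)) →
    R.SplitI g (G.map v₀.toCompletion) := by
  intro g hg
  induction g, hg using Nat.le_induction with
  | base =>
    intro n hn G hs hd H
    obtain rfl : n = 3 := hn
    rw [split_one]
    refine reciprocity h2 (locAt h2) G hs hd v₀ fun w hw => ?_
    rw [← split_one]
    exact H w hw
  | succ g hg ih =>
    intro n hn G hs hd H
    obtain ⟨m, rfl⟩ : ∃ m, n = m + 2 := ⟨2 * g + 1, by omega⟩
    obtain ⟨e, he, hee⟩ := R.exists_zero (by omega) G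
    have h2' : (2 : RatFunc k) ≠ 0 := by
      intro h
      apply h2
      have h3 : algebraMap k (RatFunc k) 2 = 0 := by
        rw [map_ofNat]; exact h
      exact (map_eq_zero_iff _ (algebraMap k (RatFunc k)).injective).mp h3
    obtain ⟨P, Q, G', hPQ, hQP, hs', hd', hG⟩ := R.exists_split h2' G hs hd e he hee
    rw [R.splitI_step v₀.toCompletion hPQ hQP hG]
    refine ih m (by omega) G' hs' hd' fun v hv => ?_
    rw [← R.splitI_step v.toCompletion hPQ hQP hG]
    exact H v hv

theorem recip {k : Type} [Field k] [Finite k] (h2 : (2 : k) ≠ 0) {g : ℕ} (hg : 1 ≤ g)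
    (G : Matrix (Fin (2 * g + 1)) (Fin (2 * g + 1)) (RatFunc k)) (hs : G.transpose = G)
    (hd : G.det ≠ 0) (v₀ : Place k (RatFunc k))
    (H : ∀ v : Place k (RatFunc k), v ≠ v₀ → SplitM g (G.map v.toCompletion)) :
    SplitM g (G.map v₀.toCompletion) :=
  recip_aux h2 v₀ g hg _ rfl G hs hd H

end Pool.Agent.HYP
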