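import Pool.Agent.Lib.HYP.Def

/-!
Module R.Split. A quadratic form of rank `m + 2` with a nontrivial zero splits off a hyperbolic
plane, and the rest has Witt index one less, after any extension of the base field.
-/

set_option autoImplicit false

open Polynomial Matrix

namespace Pool.Agent.HYP.R

variable {F : Type} [Field F]

/-- The form with matrix `G` has a totally isotropic subspace of dimension `g`. -/
def SplitI {ι : Type} [Fintype ι] (g : ℕ) (G : Matrix ι ι F) : Prop :=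
  ∃ W : Submodule F (ι → F), Module.finrank F W = g ∧
    ∀ x ∈ W, ∀ y ∈ W, x ⬝ᵥ (G *ᵥ y) = 0

theorem exists_sub {V : Type} [AddCommGroup V] [Module F V] [FiniteDimensional F V]
    (W : Submodule F V) {n : ℕ} (h : n ≤ Module.finrank F W) :
    ∃ W' ≤ W, Module.finrank F W' = n := by
  let b := Module.finBasis F W
  let v : Fin n → V := fun i => (b (Fin.castLE h i) : V)
  refine ⟨Submodule.span F (Set.range v), ?_, ?_⟩
  · rw [Submodule.span_le]
    rintro _ ⟨i, rfl⟩
    exact (b (Fin.castLE h i)).2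
  · have hv : LinearIndependent F v := by
      have h1 : LinearIndependent F (fun i : Fin n => b (Fin.castLE h i)) :=
        b.linearIndependent.comp _ (Fin.castLE_injective h)
      exact h1.map' W.subtype (Submodule.ker_subtype W)
    rw [finrank_span_eq_card hv, Fintype.card_fin]

theorem splitI_of_le {ι : Type} [Fintype ι] {g : ℕ} {G : Matrix ι ι F}
    (W : Submodule F (ι → F)) (hW : g ≤ Module.finrank F W)
    (h : ∀ x ∈ W, ∀ y ∈ W, x ⬝ᵥ (G *ᵥ y) = 0) : SplitI g G := by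
  obtain ⟨W', hW', hd⟩ := exists_sub W hW
  exact ⟨W', hd, fun x hx y hy => h x (hW' hx) y (hW' hy)⟩

theorem splitI_pull {ι κ : Type} [Fintype ι] [Fintype κ] {g : ℕ} {G : Matrix ι ι F}
    {G' : Matrix κ κ F} (P : Matrix ι κ F) (hinj : Function.Injective P.mulVec)
    (hG : Pᵀ * G * P = G') (h : SplitI g G') : SplitI g G := by
  obtain ⟨W, hd, hW⟩ := h
  refine ⟨W.map P.mulVecLin, ?_, ?_⟩
  · rw [← hd]
    exact (Submodule.equivMapOfInjective P.mulVecLin hinj W).finrank_eq.symm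
  · rintro _ ⟨x, hx, rfl⟩ _ ⟨y, hy, rfl⟩
    rw [Matrix.mulVecLin_apply, Matrix.mulVecLin_apply]
    have := hW x hx y hy
    rw [← hG, Matrix.mul_assoc, ← Matrix.mulVec_mulVec, ← Matrix.mulVec_mulVec,
      Matrix.dotProduct_mulVec, Matrix.vecMul_transpose] at this
    exact this

/-- congruence -/
theorem splitI_congr {ι κ : Type} [Fintype ι] [Fintype κ] [DecidableEq ι] [DecidableEq κ] {g : ℕ}
    {G : Matrix ι ι F} {G' : Matrix κ κ F} (P : Matrix ι κ F) (Q : Matrix κ ι F)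
    (hPQ : P * Q = 1) (hQP : Q * P = 1) (hG : Pᵀ * G * P = G') : SplitI g G ↔ SplitI g G' := by
  constructor
  · intro h
    refine splitI_pull Q ?_ ?_ h
    · intro x y hxy
      have := congrArg (fun z => P *ᵥ z) hxy
      simpa only [Matrix.mulVec_mulVec, hPQ, Matrix.one_mulVec] using this
    · rw [← hG]
      calc Qᵀ * (Pᵀ * G * P) * Q = (P * Q)ᵀ * G * (P * Q) := by
            rw [Matrix.transpose_mul]; simp only [Matrix.mul_assoc]
        _ = G := by rw [hPQ]; simp
  · refine splitI_pull P ?_ hG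
    intro x y hxy
    have := congrArg (fun z => Q *ᵥ z) hxy
    simpa only [Matrix.mulVec_mulVec, hQP, Matrix.one_mulVec] using this

/-- the hyperbolic plane -/
def Hyp (F : Type) [Field F] : Matrix (Fin 2) (Fin 2) F := !![0, 1; 1, 0]

theorem hyp_val {m : ℕ} (G' : Matrix (Fin m) (Fin m) F) (x y : Fin 2 ⊕ Fin m → F) :
    x ⬝ᵥ (fromBlocks (Hyp F) 0 0 G' *ᵥ y) = x (Sum.inl 0) * y (Sum.inl 1) +
      x (Sum.inl 1) * y (Sum.inl 0) + (x ∘ Sum.inr) ⬝ᵥ (G' *ᵥ (y ∘ Sum.inr)) := by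
  rw [Matrix.fromBlocks_mulVec]
  simp only [dotProduct, Fintype.sum_sum_type, Sum.elim_inl, Sum.elim_inr, Matrix.zero_mulVec,
    add_zero, zero_add, Fin.sum_univ_two, Function.comp_apply]
  simp [Hyp, Matrix.mulVec, dotProduct, Fin.sum_univ_two]

theorem splitI_hyp {m g : ℕ} (G' : Matrix (Fin m) (Fin m) F) :
    SplitI (g + 1) (fromBlocks (Hyp F) 0 0 G') ↔ SplitI g G' := by
  classical
  constructor
  · rintro ⟨W, hd, hW⟩
    -- the projection and the functional
    let pr : (Fin 2 ⊕ Fin m → F) →ₗ[F] (Fin m → F) := LinearMap.funLeft F F Sum.inr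
    let β : (Fin 2 ⊕ Fin m → F) →ₗ[F] F := LinearMap.proj (Sum.inl 1)
    let e : Fin 2 ⊕ Fin m → F := Pi.single (Sum.inl 0) 1
    set W₁ := W ⊓ LinearMap.ker β with hW₁
    have hprx : ∀ x, pr x = x ∘ Sum.inr := fun x => rfl
    have hβx : ∀ x, β x = x (Sum.inl 1) := fun x => rfl
    have hker : ∀ x ∈ W₁, pr x = 0 → ∃ c : F, x = c • e := by
      intro x hx h0
      refine ⟨x (Sum.inl 0), ?_⟩
      have h1 : x (Sum.inl 1) = 0 := hx.2
      funext i
      rcases i with i | i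
      · fin_cases i
        · simp [e]
        · simpa [e] using h1
      · have h2 := congrFun h0 i
        rw [hprx] at h2
        simpa [e] using h2
    have hrn := LinearMap.finrank_range_add_finrank_ker (pr.domRestrict W₁)
    rw [LinearMap.range_domRestrict] at hrn
    have hiso : ∀ x ∈ W₁.map pr, ∀ y ∈ W₁.map pr, x ⬝ᵥ (G' *ᵥ y) = 0 := by
      rintro _ ⟨x, hx, rfl⟩ _ ⟨y, hy, rfl⟩
      have h1 := hW x hx.1 y hy.1
      rw [hyp_val] at h1
      have hx1 : x (Sum.inl 1) = 0 := hx.2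
      have hy1 : y (Sum.inl 1) = 0 := hy.2
      rw [hx1, hy1, mul_zero, zero_mul, zero_add, zero_add] at h1
      exact h1
    refine splitI_of_le (W₁.map pr) ?_ hiso
    by_cases he : e ∈ W
    · have hle : W ≤ LinearMap.ker β := by
        intro x hx
        have h1 := hW e he x hx
        rw [hyp_val] at h1
        have : (e ∘ Sum.inr : Fin m → F) = 0 := by
          funext i; simp [e]
        rw [this, zero_dotProduct, add_zero] at h1
        simpa [e, hβx] using h1
      have hWW : W₁ = W := inf_eq_left.mpr hle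
      have heW : e ∈ W₁ := by rw [hWW]; exact he
      have hepr : pr e = 0 := by
        funext i; simp [hprx, e]
      have hkd : Module.finrank F (LinearMap.ker (pr.domRestrict W₁)) ≤ 1 := by
        refine finrank_le_one ⟨⟨e, heW⟩, hepr⟩ ?_
        rintro ⟨⟨x, hx⟩, hx0⟩
        obtain ⟨c, hc⟩ := hker x hx hx0
        exact ⟨c, Subtype.ext (Subtype.ext hc.symm)⟩
      rw [hWW] at hrn hkd ⊢
      omega
    · have hk0 : LinearMap.ker (pr.domRestrict W₁) = ⊥ := by
        rw [LinearMap.ker_eq_bot']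
        rintro ⟨x, hx⟩ hx0
        obtain ⟨c, hc⟩ := hker x hx hx0
        by_cases hc0 : c = 0
        · have : x = 0 := by rw [hc, hc0, zero_smul]
          exact Subtype.ext this
        · exfalso
          apply he
          have : e = c⁻¹ • x := by rw [hc, smul_smul, inv_mul_cancel₀ hc0, one_smul]
          rw [this]
          exact W.smul_mem _ hx.1
      rw [hk0, finrank_bot, add_zero] at hrn
      rw [hrn]
      have h1 := Submodule.finrank_sup_add_finrank_inf_eq W (LinearMap.ker β)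
      have h2 := LinearMap.finrank_range_add_finrank_ker β
      have h3 : Module.finrank F (LinearMap.range β) ≤ 1 := by
        have := Submodule.finrank_le (LinearMap.range β)
        rwa [Module.finrank_self] at this
      have h4 := Submodule.finrank_le (W ⊔ LinearMap.ker β)
      rw [← hW₁] at h1
      omega
  · rintro ⟨W, hd, hW⟩
    let W' : Submodule F (Fin 2 ⊕ Fin m → F) :=
      { carrier := {x | x (Sum.inl 1) = 0 ∧ x ∘ Sum.inr ∈ W}
        add_mem' := by
          rintro x y ⟨hx1, hx2⟩ ⟨hy1, hy2⟩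
          exact ⟨by rw [Pi.add_apply, hx1, hy1, add_zero], W.add_mem hx2 hy2⟩
        zero_mem' := ⟨rfl, W.zero_mem⟩
        smul_mem' := by
          rintro c x ⟨hx1, hx2⟩
          exact ⟨by rw [Pi.smul_apply, hx1, smul_zero], W.smul_mem c hx2⟩ }
    let f : F × W →ₗ[F] W' :=
      { toFun := fun z => ⟨Sum.elim ![z.1, 0] z.2, by
          refine ⟨rfl, ?_⟩
          rw [Sum.elim_comp_inr]; exact z.2.2⟩
        map_add' := by
          rintro ⟨a, x⟩ ⟨b, y⟩
          refine Subtype.ext (funext fun i => ?_)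
          rcases i with i | i
          · fin_cases i <;> simp
          · simp
        map_smul' := by
          rintro c ⟨b, y⟩
          refine Subtype.ext (funext fun i => ?_)
          rcases i with i | i
          · fin_cases i <;> simp
          · simp }
    have hf : Function.Injective f := by
      rintro ⟨a, x⟩ ⟨b, y⟩ h
      have h1 := congrArg (fun z : W' => (z : Fin 2 ⊕ Fin m → F)) h
      have h2 := congrFun h1 (Sum.inl 0)
      have h3 : ∀ i, (x : Fin m → F) i = (y : Fin m → F) i := fun i => congrFun h1 (Sum.inr i)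
      refine Prod.ext ?_ (Subtype.ext (funext h3))
      simpa [f] using h2
    refine splitI_of_le W' ?_ ?_
    · have := LinearMap.finrank_le_finrank_of_injective hf
      rw [Module.finrank_prod, Module.finrank_self, hd] at this
      omega
    · rintro x ⟨hx1, hx2⟩ y ⟨hy1, hy2⟩
      rw [hyp_val, hx1, hy1, mul_zero, zero_mul, zero_add, zero_add]
      exact hW _ hx2 _ hy2

/-- **A form with a nontrivial zero splits off a hyperbolic plane.** -/
theorem exists_split (h2 : (2 : F) ≠ 0) {m : ℕ} (G : Matrix (Fin (m + 2)) (Fin (m + 2)) F)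
    (hs : Gᵀ = G) (hd : G.det ≠ 0) (e : Fin (m + 2) → F) (he : e ≠ 0) (hee : e ⬝ᵥ (G *ᵥ e) = 0) :
    ∃ (P : Matrix (Fin (m + 2)) (Fin 2 ⊕ Fin m) F) (Q : Matrix (Fin 2 ⊕ Fin m) (Fin (m + 2)) F)
      (G' : Matrix (Fin m) (Fin m) F), P * Q = 1 ∧ Q * P = 1 ∧ G'ᵀ = G' ∧ G'.det ≠ 0 ∧
        Pᵀ * G * P = fromBlocks (Hyp F) 0 0 G' := by
  classical
  have hsym : ∀ x y : Fin (m + 2) → F, x ⬝ᵥ (G *ᵥ y) = y ⬝ᵥ (G *ᵥ x) := by
    intro x y
    rw [Matrix.dotProduct_mulVec, ← Matrix.mulVec_transpose, hs, dotProduct_comm]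
  have hadd : ∀ x y z : Fin (m + 2) → F, x ⬝ᵥ (G *ᵥ (y + z)) = x ⬝ᵥ (G *ᵥ y) + x ⬝ᵥ (G *ᵥ z) := by
    intro x y z
    rw [Matrix.mulVec_add, dotProduct_add]
  have hsm : ∀ (x y : Fin (m + 2) → F) (c : F), x ⬝ᵥ (G *ᵥ (c • y)) = c * (x ⬝ᵥ (G *ᵥ y)) := by
    intro x y c
    rw [Matrix.mulVec_smul, dotProduct_smul, smul_eq_mul]
  obtain ⟨i, hi⟩ : ∃ i, (G *ᵥ e) i ≠ 0 := by
    by_contra hcon
    push Not at hcon
    exact he (Matrix.eq_zero_of_mulVec_eq_zero hd (funext hcon))
  obtain ⟨w, hw1, hw2⟩ : ∃ w : Fin (m + 2) → F, e ⬝ᵥ (G *ᵥ w) = 1 ∧ w ⬝ᵥ (G *ᵥ w) = 0 := by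
    obtain ⟨w1, h1⟩ : ∃ w1 : Fin (m + 2) → F, w1 ⬝ᵥ (G *ᵥ e) = 1 := by
      refine ⟨((G *ᵥ e) i)⁻¹ • Pi.single i 1, ?_⟩
      rw [smul_dotProduct, single_dotProduct, one_mul, smul_eq_mul, inv_mul_cancel₀ hi]
    have h1' : e ⬝ᵥ (G *ᵥ w1) = 1 := by rw [hsym]; exact h1
    have h3 : ∀ a : F, e ⬝ᵥ (G *ᵥ (w1 + a • e)) = 1 := by
      intro a
      rw [hadd, hsm, hee, h1', mul_zero, add_zero]
    refine ⟨w1 + (-(w1 ⬝ᵥ (G *ᵥ w1) / 2)) • e, h3 _, ?_⟩
    set c := w1 ⬝ᵥ (G *ᵥ w1) with hc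
    have h4 : w1 ⬝ᵥ (G *ᵥ (w1 + (-(c / 2)) • e)) = c + -(c / 2) := by
      rw [hadd, hsm, h1, mul_one]
    rw [add_dotProduct, smul_dotProduct, h3, h4, smul_eq_mul]
    field_simp
    ring
  have hw3 : w ⬝ᵥ (G *ᵥ e) = 1 := by rw [hsym]; exact hw1
  -- the orthogonal complement
  let φ : (Fin (m + 2) → F) →ₗ[F] F × F :=
    { toFun := fun x => (e ⬝ᵥ (G *ᵥ x), w ⬝ᵥ (G *ᵥ x))
      map_add' := fun x y => by simp only [hadd, Prod.mk_add_mk]
      map_smul' := fun c x => by
        simp only [hsm, RingHom.id_apply, Prod.smul_mk, smul_eq_mul] }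
  have hφ : ∀ x, φ x = (e ⬝ᵥ (G *ᵥ x), w ⬝ᵥ (G *ᵥ x)) := fun x => rfl
  have hsur : Function.Surjective φ := by
    rintro ⟨a, b⟩
    refine ⟨a • w + b • e, ?_⟩
    rw [hφ]
    simp only [hadd, hsm, hw1, hw2, hw3, hee]
    simp
  have hU : Module.finrank F (LinearMap.ker φ) = m := by
    have := LinearMap.finrank_range_add_finrank_ker φ
    rw [LinearMap.range_eq_top.mpr hsur, finrank_top, Module.finrank_prod, Module.finrank_self,
      Module.finrank_fin_fun] at this
    omega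
  let b := Module.finBasisOfFinrankEq F (LinearMap.ker φ) hU
  have hb1 : ∀ j, e ⬝ᵥ (G *ᵥ (b j : Fin (m + 2) → F)) = 0 := fun j =>
    congrArg Prod.fst (b j).2
  have hb2 : ∀ j, w ⬝ᵥ (G *ᵥ (b j : Fin (m + 2) → F)) = 0 := fun j =>
    congrArg Prod.snd (b j).2
  let f : (Fin 2 ⊕ Fin m → F) →ₗ[F] (Fin (m + 2) → F) :=
    { toFun := fun x => x (Sum.inl 0) • e + x (Sum.inl 1) • w +
        ∑ j, x (Sum.inr j) • (b j : Fin (m + 2) → F)
      map_add' := fun x y => by
        simp only [Pi.add_apply, add_smul, Finset.sum_add_distrib]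
        abel
      map_smul' := fun c x => by
        simp only [Pi.smul_apply, smul_eq_mul, RingHom.id_apply, smul_add, Finset.smul_sum,
          smul_smul] }
  have hf : ∀ x, f x = x (Sum.inl 0) • e + x (Sum.inl 1) • w +
        ∑ j, x (Sum.inr j) • (b j : Fin (m + 2) → F) := fun x => rfl
  have hsum : ∀ (u : Fin (m + 2) → F) (x : Fin m → F),
      u ⬝ᵥ (G *ᵥ (∑ j, x j • (b j : Fin (m + 2) → F))) =
        ∑ j, x j * (u ⬝ᵥ (G *ᵥ (b j : Fin (m + 2) → F))) := by
    intro u x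
    rw [Matrix.mulVec_sum, dotProduct_sum]
    refine Finset.sum_congr rfl fun j _ => ?_
    rw [Matrix.mulVec_smul, dotProduct_smul, smul_eq_mul]
  have hfe : ∀ x, e ⬝ᵥ (G *ᵥ (f x)) = x (Sum.inl 1) := by
    intro x
    rw [hf, hadd, hadd, hsm, hsm, hee, hw1, hsum]
    simp [hb1]
  have hfw : ∀ x, w ⬝ᵥ (G *ᵥ (f x)) = x (Sum.inl 0) := by
    intro x
    rw [hf, hadd, hadd, hsm, hsm, hw2, hw3, hsum]
    simp [hb2]
  have hinj : Function.Injective f := by
    rw [← LinearMap.ker_eq_bot, LinearMap.ker_eq_bot']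
    intro x hx
    have h1 := hfe x
    have h3 := hfw x
    rw [hx, Matrix.mulVec_zero, dotProduct_zero] at h1 h3
    have h4 : ∑ j, x (Sum.inr j) • b j = 0 := by
      rw [hf, ← h1, ← h3, zero_smul, zero_smul, zero_add, zero_add] at hx
      refine Subtype.ext ?_
      simpa using hx
    have h5 := Fintype.linearIndependent_iff.mp b.linearIndependent _ h4
    funext i
    rcases i with i | i
    · fin_cases i
      · exact h3.symm
      · exact h1.symm
    · exact h5 i
  let L := f.linearEquivOfInjective hinj (by simp; omega)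
  have hL : ∀ x, L x = f x := fun x => LinearMap.linearEquivOfInjective_apply hinj _ x
  set P : Matrix (Fin (m + 2)) (Fin 2 ⊕ Fin m) F := LinearMap.toMatrix' L.toLinearMap with hP
  set Q : Matrix (Fin 2 ⊕ Fin m) (Fin (m + 2)) F := LinearMap.toMatrix' L.symm.toLinearMap with hQ
  have hPQ : P * Q = 1 := by
    rw [hP, hQ, ← LinearMap.toMatrix'_comp, LinearEquiv.comp_symm, LinearMap.toMatrix'_id]
  have hQP : Q * P = 1 := by
    rw [hP, hQ, ← LinearMap.toMatrix'_comp, LinearEquiv.symm_comp, LinearMap.toMatrix'_id]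
  have hPv : ∀ x, P *ᵥ x = f x := by
    intro x
    rw [hP, LinearMap.toMatrix'_mulVec]
    exact hL x
  set G' : Matrix (Fin m) (Fin m) F := Matrix.of fun i j =>
    (b i : Fin (m + 2) → F) ⬝ᵥ (G *ᵥ (b j : Fin (m + 2) → F)) with hG'
  have hval : ∀ x y, (f x) ⬝ᵥ (G *ᵥ (f y)) = x ⬝ᵥ (fromBlocks (Hyp F) 0 0 G' *ᵥ y) := by
    intro x y
    rw [hyp_val]
    have e1 : (f x) ⬝ᵥ (G *ᵥ (f y)) = x (Sum.inl 0) * y (Sum.inl 1) +
        x (Sum.inl 1) * y (Sum.inl 0) + (∑ j, x (Sum.inr j) • (b j : Fin (m + 2) → F)) ⬝ᵥ (G *ᵥ (f y)) := by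
      rw [hf x, add_dotProduct, add_dotProduct, smul_dotProduct, smul_dotProduct, hfe, hfw,
        smul_eq_mul, smul_eq_mul]
    rw [e1]
    congr 1
    rw [sum_dotProduct]
    unfold dotProduct
    refine Finset.sum_congr rfl fun i _ => ?_
    have e2 : (b i : Fin (m + 2) → F) ⬝ᵥ (G *ᵥ (f y)) =
        (G' *ᵥ (y ∘ Sum.inr)) i := by
      rw [hf y, hadd, hadd, hsm, hsm, hsym _ e, hsym _ w, hb1, hb2, mul_zero, mul_zero, zero_add,
        zero_add, hsum]
      exact Finset.sum_congr rfl fun j _ => mul_comm _ _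
    rw [← e2]
    simp only [Pi.smul_apply, smul_eq_mul, Function.comp_apply, dotProduct, Finset.mul_sum,
      mul_assoc]
  have hGram : Pᵀ * G * P = fromBlocks (Hyp F) 0 0 G' := by
    ext i j
    have e1 := hval (Pi.single i 1) (Pi.single j 1)
    rw [← hPv, ← hPv, ← Matrix.vecMul_transpose, ← Matrix.dotProduct_mulVec,
      Matrix.mulVec_mulVec, Matrix.mulVec_mulVec] at e1
    simpa [single_dotProduct, Matrix.mulVec_single_one] using e1
  refine ⟨P, Q, G', hPQ, hQP, ?_, ?_, hGram⟩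
  · ext i j
    rw [Matrix.transpose_apply, hG', Matrix.of_apply, Matrix.of_apply, hsym]
  · intro h0
    obtain ⟨v, hv, hv0⟩ := Matrix.exists_mulVec_eq_zero_iff.mpr h0
    apply hv
    have e1 : ∀ z : Fin (m + 2) → F, z ⬝ᵥ (G *ᵥ (f (Sum.elim 0 v))) = 0 := by
      intro z
      have e2 : z = f (L.symm z) := by rw [← hL, LinearEquiv.apply_symm_apply]
      rw [e2, hval, hyp_val]
      simp [hv0]
    have e3 : G *ᵥ (f (Sum.elim 0 v)) = 0 := by
      funext i
      have := e1 (Pi.single i 1)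
      rwa [single_dotProduct, one_mul] at this
    have e4 := Matrix.eq_zero_of_mulVec_eq_zero hd e3
    have e5 : (Sum.elim 0 v : Fin 2 ⊕ Fin m → F) = 0 := hinj (by rw [e4, map_zero])
    funext i
    exact congrFun e5 (Sum.inr i)

/-- The split condition after an extension of the base field. -/
theorem splitI_step {K : Type} [Field K] (φ : K →+* F) {m g : ℕ}
    {G : Matrix (Fin (m + 2)) (Fin (m + 2)) K} {P : Matrix (Fin (m + 2)) (Fin 2 ⊕ Fin m) K}
    {Q : Matrix (Fin 2 ⊕ Fin m) (Fin (m + 2)) K} {G' : Matrix (Fin m) (Fin m) K}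
    (hPQ : P * Q = 1) (hQP : Q * P = 1) (hG : Pᵀ * G * P = fromBlocks (Hyp K) 0 0 G') :
    SplitI (g + 1) (G.map φ) ↔ SplitI g (G'.map φ) := by
  refine Iff.trans ?_ (splitI_hyp (G'.map φ))
  refine splitI_congr (P.map φ) (Q.map φ) ?_ ?_ ?_
  · rw [← Matrix.map_mul, hPQ, Matrix.map_one _ (map_zero φ) (map_one φ)]
  · rw [← Matrix.map_mul, hQP, Matrix.map_one _ (map_zero φ) (map_one φ)]
  · rw [← Matrix.transpose_map, ← Matrix.map_mul, ← Matrix.map_mul, hG, Matrix.fromBlocks_map]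
    congr 1
    · ext i j
      fin_cases i <;> fin_cases j <;> simp [Hyp]
    · ext i j; simp
    · ext i j; simp

end Pool.Agent.HYP.R
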